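import Pool.Agent.N824.CN.Final

/-!
# A coarse recognition theorem for closed simply connected 4-manifolds

Let `N` be a closed simply connected smooth 4-manifold, smoothly embedded in some `ℝᵏ` by `ι` (it
has any intersection form). Let `M` be a closed connected smooth 4-manifold with a metric (it is not
assumed that `M` is homeomorphic, or homotopy equivalent, to `N`, nor that it is simply connected).
Let `g` be a map which is a local diffeomorphism to `N` on an open set `U` (for instance `U` empty,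
or the complement of a small ball or of a knotted 2-complex), and `Z` a closed subset of `U`.
Suppose that, for arbitrarily small scales `r` (all `r` in a set `S` accumulating at `0`, for
instance a sequence), we are given a measurable map `f r : M → N`, with `f r = g` on `U`, such that
each point `x` outside `U` satisfies one of the following.

* The maps `f r` are coarsely monotone at `x`: there is a smooth parametrization `A` around `x`,
  `κ`-bi-Lipschitz for the metric, such that at all points `p` near `0` and at all small scales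
  `r ∈ S` the map `h = ι ∘ f r ∘ A` oscillates by at most `ω(r)` on the ball of radius `κ² r` about
  `p`, and for every direction `u` there is a functional `ℓ` of `ℝᵏ` with
  `ℓ (h q') - ℓ (h q) ≥ t - ε r` as soon as `q' - q` is equal to `t u` up to `r / H(r)` in this
  ball, where `‖ℓ‖ ‖h q - h p‖ ≤ H(r) r`. Here `κ² ε` is at most a universal constant, while `H` and
  `ω` are arbitrary functions with `H(r) (r + ω(r)) → 0`.
* The maps `f r` are almost affine at `x`: in the same situation there are a linear map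
  `L : ℝ⁴ → ℝᵏ` and `m > 0` with `m ‖v‖ ≤ ‖L v‖ ≤ H(r) m ‖v‖` and `H(r) m r ≤ ω(r)` such that
  `ι ∘ f r ∘ A` is at distance at most `δ m r` from an affine map with linear part `L` on the ball
  of radius `κ² r` about `p`, with `κ² δ` at most a universal constant. (`L` and `m` may vary with
  `p` and `r` in any way.)

Then `M` is diffeomorphic to `N`, by a diffeomorphism equal to `g` near `Z`. The maps `f r` need not
be continuous, injective or surjective, they need not be homotopic or close to each other for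
different `r`, and nothing is assumed about `f r` at scales different from `r`.
-/

set_option autoImplicit false

open Set Filter Topology Metric Function
open scoped Manifold ContDiff

namespace Pool.Agent.Results.MP_cb9bff_gt.CoarseRecognition

/-- `ℝ⁴` -/
abbrev R4 := EuclideanSpace ℝ (Fin 4)

section defs

variable {M : Type} [MetricSpace M] [ChartedSpace R4 M]

/-- `f` is a local diffeomorphism at `x` -/
def LocDiff {P Q : Type} [TopologicalSpace P] [ChartedSpace R4 P] [TopologicalSpace Q]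
    [ChartedSpace R4 Q] (f : P → Q) (x : P) : Prop :=
  IsLocalDiffeomorphAt (𝓡 4) (𝓡 4) ∞ f x

/-- `A` is a smooth parametrization of a neighbourhood of `x = A 0`, and it is `κ`-bi-Lipschitz for
the metric of `M` on the ball of radius `ρ` about `0` -/
def Param (A : R4 → M) (κ ρ : ℝ) (x : M) : Prop :=
  A 0 = x ∧ LocDiff A 0 ∧ 1 ≤ κ ∧ 0 < ρ ∧
    ∀ p q : R4, ‖p‖ < ρ → ‖q‖ < ρ →
      dist (A p) (A q) ≤ κ * ‖p - q‖ ∧ ‖p - q‖ ≤ κ * dist (A p) (A q)

/-- `H ≥ 1` and `om ≥ 0` are functions of the scale `r` with `H(r) (r + om(r)) → 0` as `r → 0` (for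
instance `H` is a constant and `om(r) → 0`) -/
def Slow (H om : ℝ → ℝ) : Prop :=
  (∀ r, 1 ≤ H r) ∧ (∀ r, 0 ≤ om r) ∧ Tendsto (fun r => H r * (r + om r)) (𝓝[>] 0) (𝓝 0)

variable {W : Type} [NormedAddCommGroup W] [NormedSpace ℝ W]

/-- the maps `f r` are coarsely monotone at `x`, each one at its scale `r ∈ S` -/
def CoarseMono (C : ℝ) (S : Set ℝ) (f : ℝ → M → W) (x : M) : Prop :=
  ∃ (A : R4 → M) (κ ε ρ : ℝ) (H om : ℝ → ℝ), Param A κ ρ x ∧ 0 ≤ ε ∧ C * (κ ^ 2 * ε) ≤ 1 ∧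
    Slow H om ∧ ∀ p : R4, ‖p‖ < ρ → ∀ r ∈ S, 0 < r → r < ρ →
      (∀ q, ‖q - p‖ ≤ κ ^ 2 * r → ‖f r (A q) - f r (A p)‖ ≤ om r) ∧
      ∀ u : R4, ‖u‖ = 1 → ∃ ℓ : W →L[ℝ] ℝ,
        (∀ q, ‖q - p‖ ≤ κ ^ 2 * r → ‖ℓ‖ * ‖f r (A q) - f r (A p)‖ ≤ H r * r) ∧
        ∀ q q', ‖q - p‖ ≤ κ ^ 2 * r → ‖q' - p‖ ≤ κ ^ 2 * r → ∀ t : ℝ, 0 ≤ t →
          ‖q' - q - t • u‖ ≤ r / H r → t - ε * r ≤ ℓ (f r (A q')) - ℓ (f r (A q))

/-- the maps `f r` are almost affine at `x`, each one at its scale `r ∈ S` -/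
def AlmostAffine (C : ℝ) (S : Set ℝ) (f : ℝ → M → W) (x : M) : Prop :=
  ∃ (A : R4 → M) (κ δ ρ : ℝ) (H om : ℝ → ℝ), Param A κ ρ x ∧ 0 ≤ δ ∧ C * (κ ^ 2 * δ) ≤ 1 ∧
    Slow H om ∧ ∀ p : R4, ‖p‖ < ρ → ∀ r ∈ S, 0 < r → r < ρ → ∃ (L : R4 →L[ℝ] W) (m : ℝ), 0 < m ∧
      (∀ v, m * ‖v‖ ≤ ‖L v‖ ∧ ‖L v‖ ≤ H r * m * ‖v‖) ∧ H r * m * r ≤ om r ∧
      ∀ q, ‖q - p‖ ≤ κ ^ 2 * r → ‖f r (A q) - f r (A p) - L (q - p)‖ ≤ δ * m * r

end defs

/-- `ι` is a smooth injective immersion in `ℝᵏ` (its differential at `y` is injective, in a smooth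
parametrization `A` around `y = A 0`) -/
def SmoothEmb {N : Type} [TopologicalSpace N] [ChartedSpace R4 N] {k : ℕ}
    (ι : N → EuclideanSpace ℝ (Fin k)) : Prop :=
  ContMDiff (𝓡 4) (𝓡 k) ∞ ι ∧ Injective ι ∧ ∀ y, ∃ A : R4 → N, A 0 = y ∧ LocDiff A 0 ∧
    ∀ v : R4, fderiv ℝ (fun z => ι (A z)) 0 v = 0 → v = 0

/-- the maps `f r` (`r ∈ S`) are measurable, equal to `g` on `U`, and at each point outside `U` they
are coarsely monotone or almost affine (as maps to `ℝᵏ`, by `ι`); `0` is a limit of scales -/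
def CoarseMaps {M N : Type} [MetricSpace M] [MeasurableSpace M] [ChartedSpace R4 M] {k : ℕ}
    (ι : N → EuclideanSpace ℝ (Fin k)) (C : ℝ) (U : Set M) (g : M → N) (S : Set ℝ)
    (f : ℝ → M → N) : Prop :=
  (0 : ℝ) ∈ closure (S ∩ Ioi 0) ∧ (∀ r ∈ S, Measurable fun x => ι (f r x)) ∧
    (∀ r ∈ S, ∀ x ∈ U, f r x = g x) ∧
    ∀ x, x ∉ U → CoarseMono C S (fun r x => ι (f r x)) x ∨
      AlmostAffine C S (fun r x => ι (f r x)) x

/-- almost affine maps are coarsely monotone -/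
theorem AlmostAffine.coarseMono {M : Type} [MetricSpace M] [ChartedSpace R4 M] {W : Type}
    [NormedAddCommGroup W] [InnerProductSpace ℝ W] {C : ℝ} (hC : 1 ≤ C) {S : Set ℝ}
    {f : ℝ → M → W} {x : M} (h : AlmostAffine (4 * C) S f x) : CoarseMono C S f x := by
  obtain ⟨A, κ, δ, ρ, H, om, hA, hδ0, hδ, ⟨hH1, hom, hH2⟩, hf⟩ := h
  have hκ := hA.2.2.1
  have hκ2 : 1 ≤ κ ^ 2 := one_le_pow₀ hκ
  have hCκ : 1 ≤ C * κ ^ 2 := by nlinarith
  have hCκ0 : 0 < C * κ ^ 2 := by linarith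
  have hδ1 : δ ≤ 1 := by
    have : δ ≤ C * (κ ^ 2 * δ) := by
      calc δ = 1 * δ := (one_mul δ).symm
        _ ≤ C * κ ^ 2 * δ := by gcongr
        _ = C * (κ ^ 2 * δ) := by ring
    linarith
  obtain ⟨Q, hQ⟩ : ∃ Q : ℝ, Q = 2 * (C * κ ^ 2) + κ ^ 2 + 1 := ⟨_, rfl⟩
  have hQ1 : 1 ≤ Q := by rw [hQ]; linarith
  obtain ⟨ε, hε⟩ : ∃ ε : ℝ, ε = 2 * δ + 1 / (2 * (C * κ ^ 2)) := ⟨_, rfl⟩
  refine ⟨A, κ, ε, ρ, fun r => Q * H r, fun r => Q * om r, hA, ?_, ?_,
    ⟨fun r => ?_, fun r => ?_, ?_⟩, ?_⟩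
  · rw [hε]; positivity
  · have h1 : C * (κ ^ 2 * ε) = 2 * (C * (κ ^ 2 * δ)) + 1 / 2 := by
      rw [hε]
      field_simp
    rw [h1]
    linarith
  · nlinarith [hH1 r]
  · have := hom r
    positivity
  · have h1 := hH2.const_mul (Q ^ 2)
    rw [mul_zero] at h1
    have h0 : ∀ᶠ r : ℝ in 𝓝[>] 0, 0 < r := self_mem_nhdsWithin
    refine squeeze_zero' ?_ ?_ h1
    · filter_upwards [h0] with r hr
      have a1 := hH1 r
      have a2 := hom r
      positivity
    · filter_upwards [h0] with r hr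
      have a1 := hH1 r
      have a2 := hom r
      calc Q * H r * (r + Q * om r) ≤ Q * H r * (Q * r + Q * om r) := by
            gcongr
            nlinarith
        _ = Q ^ 2 * (H r * (r + om r)) := by ring
  · intro p hp r hrS hr0 hrρ
    obtain ⟨L, m, hm, hL, hLo, hq⟩ := hf p hp r hrS hr0 hrρ
    have hHr := hH1 r
    have hosc : ∀ q, ‖q - p‖ ≤ κ ^ 2 * r →
        ‖f r (A q) - f r (A p)‖ ≤ (κ ^ 2 + 1) * (H r * m * r) := by
      intro q hqp
      calc ‖f r (A q) - f r (A p)‖ = ‖L (q - p) + (f r (A q) - f r (A p) - L (q - p))‖ := by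
            congr 1
            abel
        _ ≤ ‖L (q - p)‖ + ‖f r (A q) - f r (A p) - L (q - p)‖ := norm_add_le _ _
        _ ≤ H r * m * (κ ^ 2 * r) + δ * m * r := by
            refine add_le_add ((hL _).2.trans ?_) (hq q hqp)
            gcongr
        _ ≤ H r * m * (κ ^ 2 * r) + H r * m * r := by
            gcongr
            linarith
        _ = (κ ^ 2 + 1) * (H r * m * r) := by ring
    have hκQ : κ ^ 2 + 1 ≤ Q := by rw [hQ]; linarith
    refine ⟨fun q hqp => (hosc q hqp).trans ?_, fun u hu => ?_⟩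
    · have := hom r
      calc (κ ^ 2 + 1) * (H r * m * r) ≤ (κ ^ 2 + 1) * om r := by gcongr
        _ ≤ Q * om r := by gcongr
    have hLu : m ≤ ‖L u‖ := by
      have := (hL u).1
      rwa [hu, mul_one] at this
    have hLu0 : 0 < ‖L u‖ := lt_of_lt_of_le hm hLu
    obtain ⟨ℓ, hℓ⟩ : ∃ ℓ : W →L[ℝ] ℝ, ℓ = (‖L u‖ ^ 2)⁻¹ • innerSL ℝ (L u) := ⟨_, rfl⟩
    have hℓu : ℓ (L u) = 1 := by
      rw [hℓ]
      simp only [smul_apply, innerSL_apply_apply, real_inner_self_eq_norm_sq, smul_eq_mul]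
      exact inv_mul_cancel₀ (by positivity)
    have hℓn' : ‖ℓ‖ ≤ 1 / m := by
      refine ContinuousLinearMap.opNorm_le_bound _ (by positivity) fun v => ?_
      rw [hℓ]
      simp only [smul_apply, innerSL_apply_apply, smul_eq_mul, norm_mul, norm_inv, norm_pow,
        norm_norm]
      calc (‖L u‖ ^ 2)⁻¹ * ‖inner ℝ (L u) v‖ ≤ (‖L u‖ ^ 2)⁻¹ * (‖L u‖ * ‖v‖) := by
            gcongr
            exact norm_inner_le_norm _ _
        _ = 1 / ‖L u‖ * ‖v‖ := by field_simp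
        _ ≤ 1 / m * ‖v‖ := by gcongr
    have hℓn : ∀ v, |ℓ v| ≤ ‖v‖ / m := by
      intro v
      rw [← Real.norm_eq_abs]
      refine (ℓ.le_opNorm v).trans ?_
      calc ‖ℓ‖ * ‖v‖ ≤ 1 / m * ‖v‖ := by gcongr
        _ = ‖v‖ / m := by ring
    refine ⟨ℓ, fun q hqp => ?_, fun q q' hqp hqp' t ht hqq => ?_⟩
    · calc ‖ℓ‖ * ‖f r (A q) - f r (A p)‖ ≤ 1 / m * ((κ ^ 2 + 1) * (H r * m * r)) := by
            gcongr
            exact hosc q hqp
        _ = (κ ^ 2 + 1) * (H r * r) := by field_simp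
        _ ≤ Q * (H r * r) := by gcongr
        _ = Q * H r * r := by ring
    · have e1 : ℓ (f r (A q')) - ℓ (f r (A q)) = t + ℓ (L (q' - q - t • u)) +
          ℓ (f r (A q') - f r (A p) - L (q' - p)) - ℓ (f r (A q) - f r (A p) - L (q - p)) := by
        have : L (q' - q - t • u) = L (q' - p) - L (q - p) - t • L u := by
          rw [← map_smul, ← map_sub, ← map_sub]
          congr 1
          abel
        rw [this]
        simp only [map_sub ℓ, map_smul, hℓu, smul_eq_mul, mul_one]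
        ring
      rw [e1]
      have a1 : |ℓ (L (q' - q - t • u))| ≤ 1 / (2 * (C * κ ^ 2)) * r := by
        refine (hℓn _).trans ?_
        rw [div_le_iff₀ hm]
        calc ‖L (q' - q - t • u)‖ ≤ H r * m * ‖q' - q - t • u‖ := (hL _).2
          _ ≤ H r * m * (r / (Q * H r)) := by gcongr
          _ = (1 / Q) * r * m := by field_simp
          _ ≤ 1 / (2 * (C * κ ^ 2)) * r * m := by
              gcongr
              rw [hQ]
              linarith
      have a2 : ∀ q, ‖q - p‖ ≤ κ ^ 2 * r →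
          |ℓ (f r (A q) - f r (A p) - L (q - p))| ≤ δ * r := by
        intro q hqp
        refine (hℓn _).trans ?_
        rw [div_le_iff₀ hm]
        calc _ ≤ δ * m * r := hq q hqp
          _ = δ * r * m := by ring
      have b1 := (abs_le.1 a1).1
      have b2 := (abs_le.1 (a2 q' hqp')).1
      have b3 := (abs_le.1 (a2 q hqp)).2
      rw [hε]
      linarith

theorem result : ∃ C : ℝ, 0 < C ∧
    ∀ (M N : Type) [MetricSpace M] [CompactSpace M] [ConnectedSpace M] [MeasurableSpace M]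
      [BorelSpace M] [TopologicalSpace N] [T2Space N] [CompactSpace N] [SimplyConnectedSpace N]
      [ChartedSpace R4 M] [ChartedSpace R4 N] [IsManifold (𝓡 4) ∞ M] [IsManifold (𝓡 4) ∞ N]
      (k : ℕ) (ι : N → EuclideanSpace ℝ (Fin k)) (_ : SmoothEmb ι)
      (U Z : Set M) (_ : IsOpen U) (_ : IsClosed Z) (_ : Z ⊆ U)
      (g : M → N) (_ : ∀ x ∈ U, LocDiff g x)
      (S : Set ℝ) (f : ℝ → M → N) (_ : CoarseMaps ι C U g S f),
      ∃ Φ : Diffeomorph (𝓡 4) (𝓡 4) M N ∞, ∀ x ∈ Z, Φ =ᶠ[𝓝 x] g := by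
  have hC4 : 4 ≤ Pool.Agent.N824.CR.CC 4 := by
    have := Pool.Agent.N824.CR.C1_nonneg 4
    unfold Pool.Agent.N824.CR.CC
    linarith
  refine ⟨4 * Pool.Agent.N824.CR.CC 4, by linarith, ?_⟩
  intro M N _ _ _ _ _ _ _ _ _ _ _ _ _ k ι ⟨hι, hinj, himm⟩ U Z hU hZ hZU g hg S f
    ⟨hS, hfm, hfe, hc⟩
  have hle : ∀ (f : ℝ → M → EuclideanSpace ℝ (Fin k)) (x : M),
      CoarseMono (4 * Pool.Agent.N824.CR.CC 4) S f x →
      CoarseMono (Pool.Agent.N824.CR.CC 4) S f x := by
    rintro f x ⟨A, κ, ε, ρ, H, om, hA, hε, hCε, hH, hf⟩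
    refine ⟨A, κ, ε, ρ, H, om, hA, hε, ?_, hH, hf⟩
    have : 0 ≤ Pool.Agent.N824.CR.CC 4 * (κ ^ 2 * ε) := by positivity
    linarith
  refine Pool.Agent.N824.CN.recognition hι hinj himm U Z hU hZ hZU g hg dist S hS f hfm hfe
    fun x hx => ?_
  have h1 : CoarseMono (Pool.Agent.N824.CR.CC 4) S (fun r x => ι (f r x)) x := by
    rcases hc x hx with h | h
    · exact hle _ _ h
    · exact h.coarseMono (by linarith)
  obtain ⟨A, κ, ε, ρ, H, om, ⟨hA0, hAd, hκ, hρ, hd⟩, hε, hCε, ⟨hH1, hom, hH2⟩, hf⟩ := h1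
  exact ⟨A, κ, ε, ρ, H, om, hA0, hAd, hκ, hε, hCε, hρ, hH1, hom, hH2, hd, hf⟩

end Pool.Agent.Results.MP_cb9bff_gt.CoarseRecognition
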