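import Pool.Agent.N550.CQ.All
import Pool.Agent.N550.CQ.Rkq
import Pool.Agent.N550.CQ.Rkm
import Pool.Agent.N550.CQ.Sard0
import Pool.Agent.N550.RF.Rkc

/-!
# Homeomorphisms of closed 4-manifolds which are smooth of corank at most one off a small set

Let `f : M → N` be a homeomorphism of closed smooth 4-manifolds, `N` connected (no condition on the
fundamental group, the intersection form or a handle decomposition of `N`), which is of class `C^∞`
near all points off a set whose image has one-dimensional Hausdorff measure zero. Suppose that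

* the image of the set of the points of rank one or two has one-dimensional Hausdorff measure zero
  (there may be any number of points of rank zero, three and four), or
* the image of the set of the points where `f` is not smooth or has rank at most two lies in an open
  cell of `N`.

Then there is a homeomorphism `M → N` which is a local diffeomorphism at all points but
one: `M` minus a point and `N` minus a point are diffeomorphic.
-/

set_option autoImplicit false

open Set Filter Topology Metric Function
open scoped Manifold ContDiff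

noncomputable section

namespace Pool.Agent.Results.MP_cb9bff_gt.CorankOneOffSmallSet

/-- `ℝ⁴` -/
abbrev R4 : Type := EuclideanSpace ℝ (Fin 4)

section defs

variable {M N : Type} [TopologicalSpace M] [ChartedSpace R4 M] [TopologicalSpace N]
  [ChartedSpace R4 N]

/-- `f` is of class `C^∞` near `x` (no condition is imposed on the derivative) -/
def SmoothNear (f : M → N) (x : M) : Prop := ∀ᶠ y in 𝓝 x, ContMDiffAt (𝓡 4) (𝓡 4) ∞ f y

/-- the derivative of `f` at `x`, as a linear map from `ℝ⁴` to `ℝ⁴` (in the preferred charts) -/
def der (f : M → N) (x : M) : R4 →L[ℝ] R4 := mfderiv (𝓡 4) (𝓡 4) f x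

/-- the rank of the derivative of `f` at `x` -/
def rank (f : M → N) (x : M) : ℕ := Module.finrank ℝ (LinearMap.range (der f x).toLinearMap)

/-- `x` is a point of rank one or two near which `f` is smooth -/
def RankOneTwo (f : M → N) (x : M) : Prop := SmoothNear f x ∧ (rank f x = 1 ∨ rank f x = 2)

/-- `f` is not smooth near `x`, or `x` is a point of rank at most two -/
def BadPoint (f : M → N) (x : M) : Prop := ¬ SmoothNear f x ∨ rank f x ≤ 2

/-- `f` is a local diffeomorphism (of class `C^∞`) at `x` -/
def LocDiff (f : M → N) (x : M) : Prop := IsLocalDiffeomorphAt (𝓡 4) (𝓡 4) ∞ f x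

/-- a set with one-dimensional Hausdorff measure zero (in the preferred charts) -/
def LengthZero (B : Set N) : Prop :=
  ∀ x₀ : N, MeasureTheory.Measure.hausdorffMeasure 1
    (chartAt R4 x₀ '' ((chartAt R4 x₀).source ∩ B) : Set R4) = 0

/-- `B` is contained in an open cell: the image of `ℝ⁴` under an injective local diffeomorphism -/
def InOpenCell (B : Set N) : Prop :=
  ∃ c : R4 → N, Injective c ∧ (∀ z, LocDiff c z) ∧ B ⊆ range c

/-- `G` is a local diffeomorphism at all points but one -/
def LocDiffOffPoint (G : M → N) : Prop := ∃ x₀ : M, ∀ x, x ≠ x₀ → LocDiff G x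

end defs

theorem result (M N : Type) [TopologicalSpace M] [CompactSpace M] [T2Space M] [ChartedSpace R4 M]
    [IsManifold (𝓡 4) ∞ M] [TopologicalSpace N] [T2Space N] [ConnectedSpace N]
    [ChartedSpace R4 N] [IsManifold (𝓡 4) ∞ N] (f : M ≃ₜ N)
    (hf : LengthZero (f '' {x | ¬ SmoothNear f x}))
    (hr : LengthZero (f '' {x | RankOneTwo f x}) ∨ InOpenCell (f '' {x | BadPoint f x})) :
    ∃ G : M ≃ₜ N, LocDiffOffPoint G := by
  have : CompactSpace N := f.compactSpace
  have hnull := Pool.Agent.N550.KH.Null.main 4 N
  rcases hr with hr | ⟨c, hc1, hc2, hc3⟩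
  · refine Pool.Agent.N550.CQ.Rkq.main
      (Pool.Agent.N550.CQ.Rkm.main Pool.Agent.N550.CQ.Sard0.main) Pool.Agent.N550.CQ.eng
      Pool.Agent.N550.CQ.cellQ 3 M N f (by norm_num) (hnull _ hf) ?_
    have h1 := hnull _ hr
    intro h hi hl
    refine MeasureTheory.measure_mono_null (preimage_mono ?_) (h1 h hi hl)
    rintro _ ⟨x, ⟨hx1, hx2, hx3⟩, rfl⟩
    refine ⟨x, ⟨not_not.1 hx1, ?_⟩, rfl⟩
    have h2 : 0 < rank f x := hx2
    have h3 : rank f x < 3 := hx3
    omega
  · refine Pool.Agent.N550.CQ.cellQ 3 M N f {x | BadPoint f x} c (hnull _ hf) ?_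
      (fun x hx => ?_) (fun x hx => ?_) hc1 hc2 hc3
    · have h1 := Pool.Agent.N550.RF.Rkc.main 3 M N f
      have h2 : {x | BadPoint f x} =
          {x | x ∈ Pool.Agent.N550.KH.Bad 4 f ∨ Pool.Agent.N550.CQ.rk 4 f x < 3} := by
        ext x
        exact or_congr Iff.rfl (Nat.lt_succ_iff (m := rank f x) (n := 2)).symm
      rw [h2]
      exact h1
    · exact Or.inl hx
    · by_contra hcon
      refine hx (Or.inr ?_)
      have h2 : ¬ 3 ≤ rank f x := hcon
      omega

end Pool.Agent.Results.MP_cb9bff_gt.CorankOneOffSmallSet
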