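import Pool.Agent.N550.SH.Two

/-!
# Smooth 4-manifolds with a smooth homeomorphism onto the product of two spheres

Let `M` be a smooth 4-manifold with a homeomorphism `h = (p, q)` onto the product of two
2-spheres, which is smooth (of class `C^∞`, with no condition on the inverse of `h` or on the rank of
the derivative of `h`) near all points of `M`, except those of a set whose image has one-dimensional
Hausdorff measure zero (for example, the empty set). By the theorem of Freedman, every closed simply
connected smooth 4-manifold with the intersection form of `S² × S²` is homeomorphic to `S² × S²`.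

For points `a`, `b` of `S²`, arbitrarily near to two given ones, the fibres `p = a` and `q = b` are
smooth closed surfaces (homeomorphic to `S²`, with trivial normal bundles) which meet
transversally in exactly one point, and the complement of their union is diffeomorphic to the
standard `ℝ⁴`. So `M` is the sum of `S² × S²` and of a homotopy 4-sphere which becomes
diffeomorphic to the standard `ℝ⁴` when a point is removed.
-/

set_option autoImplicit false

open Set Filter Topology Metric Function
open scoped Manifold ContDiff

noncomputable section

namespace Pool.Agent.Results.MP_cb9bff_gt.SmoothHomeoTwoSpheres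

/-- `ℝ⁴` -/
abbrev R4 : Type := EuclideanSpace ℝ (Fin 4)

/-- the tangent spaces of surfaces, `ℝ²` -/
abbrev R2 : Type := EuclideanSpace ℝ (Fin 2)

/-- the unit sphere `S²` of `ℝ³` -/
abbrev S2 : Type := sphere (0 : EuclideanSpace ℝ (Fin 3)) 1

section defs

variable {M : Type} [TopologicalSpace M] [ChartedSpace R4 M]

/-- the map `p` to `S²` is of class `C^∞` near `x` (no condition is imposed on the derivative) -/
def SmoothNear (p : M → S2) (x : M) : Prop := ∀ᶠ y in 𝓝 x, ContMDiffAt (𝓡 4) (𝓡 2) ∞ p y

/-- the derivative of `p` at `x`, as a linear map from `ℝ⁴` to `ℝ²` (in the preferred charts) -/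
def der (p : M → S2) (x : M) : R4 →L[ℝ] R2 := mfderiv (𝓡 4) (𝓡 2) p x

/-- `a` is a regular value of `p`: near every point of the fibre `p = a` the map `p` is smooth, and
its derivative at this point is surjective. So the fibre is a smooth closed surface with
trivial normal bundle. -/
def RegularFibre (p : M → S2) (a : S2) : Prop :=
  ∀ x, p x = a → SmoothNear p x ∧ Surjective (der p x)

/-- the fibres `p = a` and `q = b` are transversal: their tangent planes (the kernels of the
derivatives) at a common point have intersection zero -/
def TransversalFibres (p q : M → S2) (a b : S2) : Prop :=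
  ∀ x, p x = a → q x = b → ∀ v, der p x v = 0 → der q x v = 0 → v = 0

/-- The subset `U` of `M` is (open and) diffeomorphic to `ℝ⁴`: it is the image of an injective local
diffeomorphism from `ℝ⁴` to `M`. -/
def IsOpenCell (U : Set M) : Prop :=
  ∃ j : R4 → M, Injective j ∧ range j = U ∧ ∀ y, IsLocalDiffeomorphAt (𝓡 4) (𝓡 4) ∞ j y

/-- a set of one-dimensional Hausdorff measure zero -/
def LengthZero (S : Set (S2 × S2)) : Prop := MeasureTheory.Measure.hausdorffMeasure 1 S = 0

end defs

theorem result (M : Type) [TopologicalSpace M] [ChartedSpace R4 M] [IsManifold (𝓡 4) ∞ M]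
    (p q : M → S2) (h : IsHomeomorph fun x => (p x, q x))
    (hB : LengthZero ((fun x => (p x, q x)) '' {x | ¬ (SmoothNear p x ∧ SmoothNear q x)}))
    (O₁ O₂ : Set S2) (hO₁ : IsOpen O₁) (hO₂ : IsOpen O₂) (hne₁ : O₁.Nonempty)
    (hne₂ : O₂.Nonempty) :
    ∃ a ∈ O₁, ∃ b ∈ O₂, RegularFibre p a ∧ RegularFibre q b ∧ TransversalFibres p q a b ∧
      IsOpenCell {x | p x ≠ a ∧ q x ≠ b} :=
  Pool.Agent.N550.SH.two_spheres p q h hB O₁ O₂ hO₁ hO₂ hne₁ hne₂

end Pool.Agent.Results.MP_cb9bff_gt.SmoothHomeoTwoSpheres
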